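import Pool.Agent.H.MP_ffb385_an.A

set_option autoImplicit false
open Set Filter Topology
open scoped ContDiff

namespace Pool.Agent.Results.MP_ffb385_an.Spaceable

open Pool.Agent.H.MP_ffb385_an

variable {𝕜 : Type*} [RCLike 𝕜]

/-- `f` is infinitely differentiable on `[0,1]`, one-sided at the endpoints. -/
def Smooth (f : Icc (0 : ℝ) 1 → 𝕜) : Prop :=
  ContDiffOn ℝ ∞ (IccExtend zero_le_one f) (Icc 0 1)

/-- The `n`-th derivative of `f` on `[0,1]`. -/
noncomputable def Der (n : ℕ) (f : Icc (0 : ℝ) 1 → 𝕜) (x : Icc (0 : ℝ) 1) : 𝕜 :=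
  iteratedDerivWithin n (IccExtend zero_le_one f) (Icc 0 1) x

theorem part (φ : 𝕜 →L[ℝ] ℝ) (hφ : ∀ z, |φ z| ≤ ‖z‖) {f : Icc (0 : ℝ) 1 → 𝕜} (hf : Smooth f)
    {g : BoundedContinuousFunction ℕ ℝ} (hg : g ≠ 0) (e : ∀ x, φ (f x) = T g x)
    (x : Icc (0 : ℝ) 1) :
    (FormalMultilinearSeries.ofScalars 𝕜 fun n => Der n f x / (n.factorial : 𝕜)).radius = 0 := by
  by_contra h
  obtain ⟨r, hr0, hr⟩ := ENNReal.lt_iff_exists_nnreal_btwn.1 (pos_iff_ne_zero.2 h)
  obtain ⟨K, -, hK⟩ := FormalMultilinearSeries.norm_mul_pow_le_of_lt_radius _ hr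
  refine unb g hg (F := φ ∘ IccExtend zero_le_one f) (φ.contDiff.comp_contDiffOn hf)
    (fun y hy => by rw [Function.comp, IccExtend_of_mem _ _ hy, e]) x.2
    (r := r) (by exact_mod_cast hr0) K fun k => le_trans ?_ (hK k)
  refine mul_le_mul_of_nonneg_right ?_ (by positivity)
  rw [FormalMultilinearSeries.ofScalars_norm, norm_div, abs_div, RCLike.norm_natCast,
    Nat.abs_cast, iteratedDerivWithin,
    φ.iteratedFDerivWithin_comp_left (hf x x.2) uI x.2 (by exact_mod_cast le_top)]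
  exact div_le_div_of_nonneg_right (hφ _) (by positivity)

theorem lim (φ : 𝕜 →L[ℝ] ℝ) {u : ℕ → Icc (0 : ℝ) 1 → 𝕜} {f : Icc (0 : ℝ) 1 → 𝕜}
    (hu : ∀ k, ∃ g, ∀ x, φ (u k x) = T g x) (h : TendstoUniformly u f atTop) :
    ∃ g, ∀ x, φ (f x) = T g x := by
  choose g hg using hu
  obtain ⟨g0, h0⟩ := closed g (φ ∘ IccExtend zero_le_one f) (by
    rw [tendstoUniformlyOn_iff_tendstoUniformly_comp_coe]
    have := φ.uniformContinuous.comp_tendstoUniformly h
    simp only [Function.comp_def, hg] at this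
    simpa only [Function.comp_def, IccExtend_val] using this)
  exact ⟨g0, fun x => by simpa using h0 x x.2⟩

theorem result (𝕜 : Type*) [RCLike 𝕜] : ∃ V : Submodule 𝕜 (Icc (0 : ℝ) 1 → 𝕜),
    ¬ Module.Finite 𝕜 V ∧ (∀ f ∈ V, Smooth f) ∧
    (∀ (u : ℕ → Icc (0 : ℝ) 1 → 𝕜) (f : Icc (0 : ℝ) 1 → 𝕜), (∀ k, u k ∈ V) → Smooth f →
      (∀ n, TendstoUniformly (fun k => Der n (u k)) (Der n f) atTop) → f ∈ V) ∧
    ∀ f ∈ V, f ≠ 0 → ∀ x, (FormalMultilinearSeries.ofScalars 𝕜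
      fun n => Der n f x / (n.factorial : 𝕜)).radius = 0 := by
  let V : Submodule 𝕜 (Icc (0 : ℝ) 1 → 𝕜) :=
    { carrier := {f | Smooth f ∧ (∃ g, ∀ x, RCLike.re (f x) = T g x) ∧
        ∃ g, ∀ x, RCLike.im (f x) = T g x}
      add_mem' := by
        rintro a b ⟨a1, ⟨g, a2⟩, ⟨g', a3⟩⟩ ⟨b1, ⟨h, b2⟩, ⟨h', b3⟩⟩
        exact ⟨a1.add b1, ⟨g + h, fun x => by simp [a2, b2]⟩, g' + h', fun x => by simp [a3, b3]⟩
      zero_mem' := ⟨contDiffOn_const, ⟨0, by simp⟩, 0, by simp⟩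
      smul_mem' := by
        rintro c a ⟨a1, ⟨g, a2⟩, ⟨g', a3⟩⟩
        exact ⟨a1.const_smul c, ⟨RCLike.re c • g - RCLike.im c • g', fun x => by simp [a2, a3]⟩,
          RCLike.re c • g' + RCLike.im c • g, fun x => by simp [a2, a3]⟩ }
  refine ⟨V, fun hfin => ?_, fun f hf => hf.1, fun u f hu hf h => ?_, fun f hf h0 x => ?_⟩
  · let v : ℕ → V := fun j => ⟨fun x => ((T (ee j) x : ℝ) : 𝕜),
      (RCLike.ofRealCLM.contDiff.comp (T_ee j)).contDiffOn.congr fun y hy => by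
        simp [IccExtend_of_mem _ _ hy], ⟨ee j, fun x => by simp⟩, 0, fun x => by simp⟩
    refine Module.Finite.not_linearIndependent_of_infinite (R := 𝕜) v
      (linearIndependent_iff'.2 fun s c hc i hi => ?_)
    have e : ∀ x : Icc (0 : ℝ) 1, ∑ i ∈ s, c i * ((T (ee i) x : ℝ) : 𝕜) = 0 := fun x => by
      simpa [v] using congrFun (congrArg Subtype.val hc) x
    refine RCLike.ext ?_ ?_
    · simpa using indep s (fun i => RCLike.re (c i)) (fun x hx => by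
        simpa using congrArg RCLike.re (e ⟨x, hx⟩)) i hi
    · simpa using indep s (fun i => RCLike.im (c i)) (fun x hx => by
        simpa using congrArg RCLike.im (e ⟨x, hx⟩)) i hi
  · have h0 := h 0
    have e : ∀ f : Icc (0 : ℝ) 1 → 𝕜, Der 0 f = f := fun f => funext fun x => by simp [Der]
    simp only [e] at h0
    exact ⟨hf, lim RCLike.reCLM (fun k => (hu k).2.1) h0, lim RCLike.imCLM (fun k => (hu k).2.2) h0⟩
  · obtain ⟨h1, ⟨g, h2⟩, g', h3⟩ := hf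
    by_cases hg : g = 0
    · refine part RCLike.imCLM RCLike.abs_im_le_norm h1 (fun hg' => h0 ?_) h3 x
      funext y
      exact RCLike.ext (by simp [h2, hg]) (by simp [h3, hg'])
    · exact part RCLike.reCLM RCLike.abs_re_le_norm h1 hg h2 x

end Pool.Agent.Results.MP_ffb385_an.Spaceable
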